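import Pool.Agent.W900.CH.Thin
import Pool.Agent.W900.CH.EFar

/-!
# On how thin a set of strings can a random oracle be changed to close `NE` under complement?

`census Z n` is the number of the strings of length at most `n` in the set `Z`. If for every `ε > 0`
there are infinitely many `n` with `census Z n ≤ ε log n`, then for almost every oracle `O` and all
oracles `A` that agree with `O` outside `Z`, `NE^A` is not closed under complement. On the other
hand, for every `ε > 0` there is a set `Z` with `census Z n ≤ ε log n` for all large `n`, such that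
all oracles can be changed on `Z` such that `NE^A` is closed under complement; and for almost every
oracle all changes on `Z` preserve `NE^A ⊄ E^A`.
-/

set_option autoImplicit false

namespace Pool.Agent.Results.MP_8d783e_lc.ThinChanges

open Pool.Agent.NPC Pool.Agent.H620R2.Gauge Pool.Agent.H622R2.Exp Pool.Agent.W900.CH
open Pool.Agent.H628R3.RO (randomOracle)
open MeasureTheory Filter

theorem result :
    (∀ Z : Set (List Bool),
      (∀ ε : ℝ, 0 < ε → ∃ᶠ n : ℕ in atTop, (census Z n : ℝ) ≤ ε * Real.logb 2 n) →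
      ∀ᵐ O ∂randomOracle, ∀ A : Oracle, (∀ y ∉ Z, A y = O y) →
        ∃ L, InNTime Lin A L ∧ ¬ InNTime Lin A Lᶜ) ∧
    ∀ ε : ℝ, 0 < ε → ∃ Z : Set (List Bool),
      (∀ᶠ n : ℕ in atTop, (census Z n : ℝ) ≤ ε * Real.logb 2 n) ∧
      (∀ O : Oracle, ∃ A : Oracle, (∀ y ∉ Z, A y = O y) ∧
        ∀ L, InNTime Lin A L ↔ InNTime Lin A Lᶜ) ∧
      ∀ᵐ O ∂randomOracle, ∀ A : Oracle, (∀ y ∉ Z, A y = O y) →
        ∃ L, InNTime Lin A L ∧ ¬ InTime Lin A L := by
  refine ⟨fun Z hZ => ?_, fun ε hε => ?_⟩
  · have hN : Null (fun N => (census Z (Nat.log 2 N) : ℝ))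
        {A : Oracle | ∀ L, InNTime Lin A L ↔ InNTime Lin A Lᶜ} :=
      (Pool.Agent.H249R3.Gau.resNE _).1.2 fun ε hε =>
        freq_pow (F := fun x => ε * Real.logb 2 x) (hZ ε hε)
    filter_upwards [ae_thin hN] with O hO A hA
    have h1 := hO A hA
    by_contra h2
    push Not at h2
    refine h1 fun L => ⟨h2 L, fun h => ?_⟩
    have := h2 _ h
    rwa [compl_compl] at this
  · obtain ⟨Z, hZ, h⟩ := exists_thin_NE hε
    refine ⟨Z, hZ, fun O => ?_, ?_⟩
    · obtain ⟨A, h1, h2⟩ := h O
      refine ⟨A, h1, fun L => ⟨h2 L, fun h => ?_⟩⟩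
      have := h2 _ h
      rwa [compl_compl] at this
    · have h3 : ∀ ε' : ℝ, 0 < ε' → ∃ᶠ n : ℕ in atTop, ε * Real.logb 2 (n : ℝ) ≤ (n : ℝ) ^ ε' := by
        intro ε' hε'
        have h4 := (tendsto_natCast_atTop_atTop (R := ℝ)).eventually
          (logb_le_rpow (half_pos hε'))
        have h5 := (tendsto_natCast_atTop_atTop (R := ℝ)).eventually
          ((tendsto_rpow_atTop (half_pos hε')).eventually_ge_atTop ε)
        apply Eventually.frequently
        filter_upwards [h4, h5, eventually_ge_atTop 1] with n h6 h7 h8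
        have h9 : (0 : ℝ) < n := by exact_mod_cast h8
        have h10 : (n : ℝ) ^ ε' = (n : ℝ) ^ (ε' / 2) * (n : ℝ) ^ (ε' / 2) := by
          rw [← Real.rpow_add h9]
          congr 1
          ring
        rw [h10]
        have h11 : (0 : ℝ) ≤ (n : ℝ) ^ (ε' / 2) := by positivity
        calc ε * Real.logb 2 n ≤ ε * (n : ℝ) ^ (ε' / 2) := mul_le_mul_of_nonneg_left h6 hε.le
          _ ≤ _ := mul_le_mul_of_nonneg_right h7 h11
      filter_upwards [ae_far_E h3] with O hO A hA
      exact ⟨hit2 A, hit2_ntime good_Lin A, hO A (close_of_thin hZ hA)⟩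

end Pool.Agent.Results.MP_8d783e_lc.ThinChanges
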